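import Pool.Agent.Helper43.EV.Goals

/-!
# Project EV (MP_d4e2f9_lc), packet PIP: finite products of forced sets
-/

set_option autoImplicit false

namespace Pool.Agent.Helper91.EV.PIP

open Pool.Agent.Helper43.EV

/-- the statement for the index type `I` -/
def St (K : Cls) (I : Type) [Fintype I] : Prop :=
  ∀ (G V : I → Type) [∀ i, Group (G i)] [∀ i, MulAction (G i) (V i)] [∀ i, Finite (V i)]
    (h : I → ℕ), (∀ i, Forced K (G i) (V i) (h i)) → Forced K (∀ i, G i) (∀ i, V i) (∏ i, h i)

section reindex

variable {I J : Type} (e : I ≃ J)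

/-- restriction along `e`, for sets -/
noncomputable def rs (V : J → Type) : (∀ j, V j) ≃ (∀ i, V (e i)) :=
  Equiv.ofBijective (fun v i => v (e i)) (by
    constructor
    · intro v w h
      funext j
      obtain ⟨i, rfl⟩ := e.surjective j
      exact congrFun h i
    · intro v
      exact ⟨(Equiv.piCongrLeft V e) v, funext fun i => Equiv.piCongrLeft_apply_apply V e v i⟩)

lemma rs_apply (V : J → Type) (v : ∀ j, V j) (i : I) : rs e V v i = v (e i) := rfl

/-- restriction along `e`, for groups -/
noncomputable def rg (G : J → Type) [∀ j, Group (G j)] : (∀ j, G j) ≃* (∀ i, G (e i)) :=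
  { rs e G with
    map_mul' := fun _ _ => rfl }

lemma rg_apply (G : J → Type) [∀ j, Group (G j)] (v : ∀ j, G j) (i : I) :
    rg e G v i = v (e i) := rfl

end reindex

lemma st_equiv (hE : EQV) (K : Cls) (hK : GoodCls K) (I J : Type) [Fintype J] (e : I ≃ J)
    (hI : @St K I (@Fintype.ofEquiv I J _ e.symm)) : St K J := by
  intro G V _ _ _ h hF
  let _ : Fintype I := Fintype.ofEquiv J e.symm
  have h1 := hI (fun i => G (e i)) (fun i => V (e i)) (fun i => h (e i)) (fun i => hF (e i))
  rw [Equiv.prod_comp e h] at h1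
  refine hE K K _ _ _ _ (rg e G).symm.toMonoidHom (rs e V).symm
    (fun H hH => hK.2.1 _ _ _ H hH) ?_ _ h1
  intro g v
  apply (rs e V).injective
  rw [Equiv.apply_symm_apply]
  funext i
  rw [rs_apply]
  show g i • v i = ((rg e G).symm g) (e i) • ((rs e V).symm v) (e i)
  have a1 : ((rg e G).symm g) (e i) = g i := congrFun ((rg e G).apply_symm_apply g) i
  have a2 : ((rs e V).symm v) (e i) = v i := congrFun ((rs e V).apply_symm_apply v) i
  rw [a1, a2]

lemma st_empty (K : Cls) (hK : GoodCls K) : St K PEmpty := by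
  intro G V _ _ _ h _
  have h1 := Fz.ext (K := K) (G := ∀ i, G i) (V := ∀ i, V i) (h := 1) ⊥ (hK.2.2 _)
    (A := ∅) (fun _ _ _ hv => hv.elim) Fz.empty
  have h2 : ∏ i : PEmpty, h i = 1 := by simp
  rw [h2]
  refine Fz.sub ?_ h1
  intro v _
  right
  have h3 : (MulAction.orbit (⊥ : Subgroup (∀ i, G i)) v).Nonempty := MulAction.nonempty_orbit v
  exact Nat.succ_le_of_lt ((Set.ncard_pos (Set.toFinite _)).2 h3)

/-- the homomorphism to the product over `Option I` -/
def og {I : Type} (G : Option I → Type) [∀ i, Group (G i)] :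
    G none × (∀ i, G (some i)) →* ∀ i, G i where
  toFun g := fun o => match o with
    | none => g.1
    | some i => g.2 i
  map_one' := by
    funext o
    cases o <;> rfl
  map_mul' g g' := by
    funext o
    cases o <;> rfl

lemma st_option (hP : PRD) (hE : EQV) (K : Cls) (hK : GoodCls K) (I : Type) [Fintype I]
    (hI : St K I) : St K (Option I) := by
  intro G V _ _ _ h hF
  have h1 := hI (fun i => G (some i)) (fun i => V (some i)) (fun i => h (some i))
    (fun i => hF (some i))
  have h2 := hP K K K hK.1 (G none) (∀ i, G (some i)) (V none) (∀ i, V (some i)) (h none)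
    (∏ i, h (some i)) (hF none) h1
  rw [Fintype.prod_option]
  refine hE K K _ _ _ _ (og G) (Equiv.piOptionEquivProd).symm
    (fun H hH => hK.2.1 _ _ _ H hH) ?_ _ h2
  intro g v
  funext o
  cases o <;> rfl

theorem t (hP : PRD) (hE : EQV) : Pool.Agent.Helper43.EV.PIP := by
  intro K hK I _ G V _ _ _ h hF
  have key : St K I := by
    refine Fintype.induction_empty_option (P := fun I _ => St K I) ?_ ?_ ?_ I
    · intro α β _ e hα
      exact st_equiv hE K hK α β e hα
    · exact st_empty K hK
    · intro α _ hα
      exact st_option hP hE K hK α hα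
  exact key G V h hF

end Pool.Agent.Helper91.EV.PIP
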